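import Pool.Agent.H9.SF.FDefs

/-! FA: the atomic forcing relations are monotone and closed under density. -/

open Ordinal
open scoped ZFSet

namespace SF.H62

open SF

theorem fa : T_FA := by
  intro c r po
  have hc : ∀ p q, ZFSet.pair p q ∈ r → ZFSet.pair p p ∈ r := by
    intro p q h
    obtain ⟨a, ha, b, -, h2⟩ := po.sub _ h
    obtain ⟨rfl, rfl⟩ := ZFSet.pair_inj.1 h2
    exact po.refl _ ha
  refine ⟨?_, ?_, ?_, ?_⟩
  · intro τ σ p q h hqp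
    rw [fE] at h ⊢
    exact ⟨fun z hz hp s hs hs2 => h.1 z hz hp s (po.trans _ _ _ hs hqp) hs2,
      fun z' hz' hp s hs hs2 => h.2 z' hz' hp s (po.trans _ _ _ hs hqp) hs2⟩
  · intro τ σ p H
    rw [fE]
    constructor
    · intro z hz hp q hq hq2
      obtain ⟨q1, hq1, h1⟩ := H q hq
      rw [fE] at h1
      obtain ⟨q2, hq2', z', hz', hp', h3, h4⟩ :=
        h1.1 z hz hp q1 (hc _ _ hq1) (po.trans _ _ _ hq1 hq2)
      exact ⟨q2, po.trans _ _ _ hq2' hq1, z', hz', hp', h3, h4⟩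
    · intro z' hz' hp' q hq hq2
      obtain ⟨q1, hq1, h1⟩ := H q hq
      rw [fE] at h1
      obtain ⟨q2, hq2', z, hz, hp, h3, h4⟩ :=
        h1.2 z' hz' hp' q1 (hc _ _ hq1) (po.trans _ _ _ hq1 hq2)
      exact ⟨q2, po.trans _ _ _ hq2' hq1, z, hz, hp, h3, h4⟩
  · intro τ σ p q h hqp s hs
    exact h s (po.trans _ _ _ hs hqp)
  · intro τ σ p H q hq
    obtain ⟨q1, hq1, h1⟩ := H q hq
    obtain ⟨q2, hq2, z, hz, hp, h3, h4⟩ := h1 q1 (hc _ _ hq1)
    exact ⟨q2, po.trans _ _ _ hq2 hq1, z, hz, hp, h3, h4⟩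

end SF.H62
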