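import Pool.Agent.H9.SF.FDefs

/-! FB: the atomic forcing relations are definable. -/

set_option linter.unusedVariables false

open Ordinal
open scoped ZFSet

namespace SF.H62

open SF

/-- one half of the recursive definition of `fE` -/
def hlf (r : V) (E : V → V → V → Prop) (τ σ p : V) : Prop :=
  ∀ z ∈ τ, IsPr z → ∀ q, ZFSet.pair q p ∈ r → ZFSet.pair q (snd z) ∈ r →
    ∃ q', ZFSet.pair q' q ∈ r ∧ ∃ z' ∈ σ, IsPr z' ∧ ZFSet.pair q' (snd z') ∈ r ∧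
      E (fst z) (fst z') q'

theorem hlf_congr {r : V} {E E' : V → V → V → Prop} {τ σ p : V}
    (h : ∀ z ∈ τ, IsPr z → ∀ z' ∈ σ, IsPr z' → ∀ q,
      (E (fst z) (fst z') q ↔ E' (fst z) (fst z') q)) : hlf r E τ σ p ↔ hlf r E' τ σ p := by
  unfold hlf
  constructor
  · intro H z hz hp q h1 h2
    obtain ⟨q', h3, z', hz', hp', h4, h5⟩ := H z hz hp q h1 h2
    exact ⟨q', h3, z', hz', hp', h4, (h z hz hp z' hz' hp' q').1 h5⟩
  · intro H z hz hp q h1 h2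
    obtain ⟨q', h3, z', hz', hp', h4, h5⟩ := H z hz hp q h1 h2
    exact ⟨q', h3, z', hz', hp', h4, (h z hz hp z' hz' hp' q').2 h5⟩

theorem fE_iff (r τ σ p : V) : fE r τ σ p ↔
    hlf r (fE r) τ σ p ∧ hlf r (fun a b q => fE r b a q) σ τ p := by
  rw [fE]
  unfold hlf
  refine and_congr Iff.rfl ?_
  refine forall_congr' fun z' => imp_congr_right fun _ => imp_congr_right fun _ =>
    forall_congr' fun q => imp_congr_right fun _ => imp_congr_right fun _ =>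
    exists_congr fun q' => and_congr_right fun _ => exists_congr fun z => ?_
  constructor
  · rintro ⟨h1, h2, h3, h4⟩
    exact ⟨h1, h2, h3, h4⟩
  · rintro ⟨h1, h2, h3, h4⟩
    exact ⟨h1, h2, h3, h4⟩

theorem fE_of_not {r τ σ p : V} (h : p ∉ rg r) : fE r τ σ p := by
  rw [fE]
  constructor
  · intro z hz hp q hq
    exact absurd (mem_rg.2 ⟨q, hq⟩) h
  · intro z hz hp q hq
    exact absurd (mem_rg.2 ⟨q, hq⟩) h

theorem dfb_hlf {a b : (V → Prop) → (ℕ → V) → V} {Q : (V → Prop) → (ℕ → V) → Prop}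
    (ha : Tm ZFm a) (hb : Tm ZFm b) (hQ : Dfb ZFm Q) :
    Dfb ZFm (fun M w => ∀ z ∈ a M w, IsPr z → ∀ q, ZFSet.pair q (w 0) ∈ w 3 →
      ZFSet.pair q (snd z) ∈ w 3 → ∃ q', ZFSet.pair q' q ∈ w 3 ∧ ∃ z' ∈ b M w, IsPr z' ∧
        ZFSet.pair q' (snd z') ∈ w 3 ∧ Q M (cons z' (cons q' (cons q (cons z w))))) := by
  have h4 : Dfb ZFm (fun M u => IsPr (u 0) ∧ ZFSet.pair (u 1) (snd (u 0)) ∈ u 7 ∧ Q M u) :=
    (Dfb.isPr (Tm.var 0)).and ((Dfb.pairMem (Tm.var 1) (Tm.snd (Tm.var 0)) (Tm.var 7)).and hQ)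
  have h3 : Dfb ZFm (fun M u => ZFSet.pair (u 0) (u 1) ∈ u 6 ∧
      ∃ z' ∈ b M (fun i => u (i + 3)), IsPr z' ∧ ZFSet.pair (u 0) (snd z') ∈ u 6 ∧
        Q M (cons z' u)) :=
    (Dfb.pairMem (Tm.var 0) (Tm.var 1) (Tm.var 6)).and
      ((Dfb.bex ktr_zfm (hb.rn (fun i => i + 3)) h4).congr fun M k v hv => Iff.rfl)
  have h2 : Dfb ZFm (fun M u => ZFSet.pair (u 0) (u 2) ∈ u 5 → ZFSet.pair (u 0) (snd (u 1)) ∈ u 5 →
      ∃ q', M q' ∧ (ZFSet.pair q' (u 0) ∈ u 5 ∧ ∃ z' ∈ b M (fun i => u (i + 2)), IsPr z' ∧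
        ZFSet.pair q' (snd z') ∈ u 5 ∧ Q M (cons z' (cons q' u)))) :=
    (Dfb.pairMem (Tm.var 0) (Tm.var 2) (Tm.var 5)).imp
      ((Dfb.pairMem (Tm.var 0) (Tm.snd (Tm.var 1)) (Tm.var 5)).imp
        (h3.ex.congr fun M k v hv => Iff.rfl))
  have h1 : Dfb ZFm (fun M u => IsPr (u 0) → ∀ q, M q → (ZFSet.pair q (u 1) ∈ u 4 →
      ZFSet.pair q (snd (u 0)) ∈ u 4 → ∃ q', M q' ∧ (ZFSet.pair q' q ∈ u 4 ∧
        ∃ z' ∈ b M (fun i => u (i + 1)), IsPr z' ∧ ZFSet.pair q' (snd z') ∈ u 4 ∧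
          Q M (cons z' (cons q' (cons q u)))))) :=
    (Dfb.isPr (Tm.var 0)).imp (h2.all.congr fun M k v hv => Iff.rfl)
  refine (Dfb.ball ktr_zfm ha h1).congr fun M k w hw => ?_
  refine forall_congr' fun z => imp_congr_right fun hz => imp_congr_right fun hp => ?_
  constructor
  · intro H q hq hq2
    obtain ⟨q', -, h5, h6⟩ := H q (k.of_pair_mem (hw 3) hq).1 hq hq2
    exact ⟨q', h5, h6⟩
  · intro H q _ hq hq2
    obtain ⟨q', h5, h6⟩ := H q hq hq2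
    exact ⟨q', (k.of_pair_mem (hw 3) h5).1, h5, h6⟩

theorem rank_opair (a b : V) :
    (ZFSet.pair a b).rank = max (Order.succ (Order.succ a.rank)) (Order.succ (Order.succ b.rank)) := by
  unfold ZFSet.pair
  rw [ZFSet.rank_pair, ZFSet.rank_singleton, ZFSet.rank_pair, Order.succ_max, ← max_assoc,
    max_self]

theorem tm_fE : Tm ZFm (fun _ v => (rg (v 1)).sep fun p => fE (v 1) (fst (v 0)) (snd (v 0)) p) := by
  have hQ1 : Dfb ZFm (fun _ u => u 1 ∈ rg (u 7) → u 1 ∈ app (u 5)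
      (ZFSet.pair (fst (u 3)) (fst (u 0)))) :=
    (Dfb.mem (Tm.var 1) (Tm.rg (Tm.var 7))).imp
      (Dfb.mem (Tm.var 1) (Tm.app (Tm.var 5) (Tm.pair (Tm.fst (Tm.var 3)) (Tm.fst (Tm.var 0)))))
  have hQ2 : Dfb ZFm (fun _ u => u 1 ∈ rg (u 7) → u 1 ∈ app (u 5)
      (ZFSet.pair (fst (u 0)) (fst (u 3)))) :=
    (Dfb.mem (Tm.var 1) (Tm.rg (Tm.var 7))).imp
      (Dfb.mem (Tm.var 1) (Tm.app (Tm.var 5) (Tm.pair (Tm.fst (Tm.var 0)) (Tm.fst (Tm.var 3)))))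
  have hA : Dfb ZFm (fun _ w => hlf (w 3) (fun a b q => q ∈ rg (w 3) →
      q ∈ app (w 1) (ZFSet.pair a b)) (fst (w 2)) (snd (w 2)) (w 0)) :=
    (dfb_hlf (Tm.fst (Tm.var 2)) (Tm.snd (Tm.var 2)) hQ1).congr fun M k w hw => Iff.rfl
  have hB : Dfb ZFm (fun _ w => hlf (w 3) (fun a b q => q ∈ rg (w 3) →
      q ∈ app (w 1) (ZFSet.pair b a)) (snd (w 2)) (fst (w 2)) (w 0)) :=
    (dfb_hlf (Tm.snd (Tm.var 2)) (Tm.fst (Tm.var 2)) hQ2).congr fun M k w hw => Iff.rfl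
  refine tm_recu (ext := fun _ v => ZFSet.prod (dm (fst (v 0))) (dm (snd (v 0))))
    (Φ := fun _ u => (rg (u 2)).sep fun p =>
      hlf (u 2) (fun a b q => q ∈ rg (u 2) → q ∈ app (u 0) (ZFSet.pair a b)) (fst (u 1))
        (snd (u 1)) p ∧
      hlf (u 2) (fun a b q => q ∈ rg (u 2) → q ∈ app (u 0) (ZFSet.pair b a)) (snd (u 1))
        (fst (u 1)) p)
    ZFSet.rank (Tm.prod (Tm.dm (Tm.fst (Tm.var 0))) (Tm.dm (Tm.snd (Tm.var 0)))) ?_ ?_ ?_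
  · exact (Tm.sep (hA.and hB) (Tm.rg (Tm.var 2))).congr fun M k v hv => rfl
  · intro M k v hv y hy
    obtain ⟨a, ha, b, hb, rfl⟩ := ZFSet.mem_prod.1 hy
    obtain ⟨a', ha'⟩ := mem_dm.1 ha
    obtain ⟨b', hb'⟩ := mem_dm.1 hb
    by_cases h : ∃ x y, v 0 = ZFSet.pair x y
    · obtain ⟨x, y, hxy⟩ := h
      rw [hxy, fst_pair] at ha'
      rw [hxy, snd_pair] at hb'
      rw [hxy]
      have h1 := rank_lt_of_pair_mem_left ha'
      have h2 := rank_lt_of_pair_mem_left hb'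
      rw [rank_opair, rank_opair]
      exact max_lt_max (Order.succ_lt_succ (Order.succ_lt_succ h1))
        (Order.succ_lt_succ (Order.succ_lt_succ h2))
    · rw [fst_eq_of_not h] at ha'
      exact absurd ha' (ZFSet.notMem_empty _)
  · intro M k v hv
    ext p
    simp only [ZFSet.mem_sep, cons_zero, cons_succ]
    refine and_congr_right fun hp => ?_
    rw [fE_iff]
    have key : ∀ z ∈ fst (v 0), IsPr z → ∀ z' ∈ snd (v 0), IsPr z' → ∀ q,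
        (fE (v 1) (fst z) (fst z') q ↔ (q ∈ rg (v 1) → q ∈ app (resS
          (ZFSet.prod (dm (fst (v 0))) (dm (snd (v 0)))) fun y =>
            (rg (v 1)).sep fun p => fE (v 1) (fst y) (snd y) p) (ZFSet.pair (fst z) (fst z')))) := by
      rintro z hz ⟨a, b, rfl⟩ z' hz' ⟨a', b', rfl⟩ q
      rw [fst_pair, fst_pair, app_resS (ZFSet.pair_mem_prod.2 ⟨mem_dm.2 ⟨b, hz⟩,
        mem_dm.2 ⟨b', hz'⟩⟩), ZFSet.mem_sep, fst_pair, snd_pair]
      by_cases h : q ∈ rg (v 1)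
      · simp [h]
      · simp [h, fE_of_not h]
    refine and_congr (hlf_congr fun z hz hp z' hz' hp' q => key z hz hp z' hz' hp' q)
      (hlf_congr fun z' hz' hp' z hz hp q => key z hz hp z' hz' hp' q)

theorem fb (hFA : T_FA) : T_FB := by
  have h1 : Dfb ZFm (fun _ v => fE (v 0) (v 1) (v 2) (v 3)) := by
    have h2 : Tm ZFm (fun _ v => (rg (v 0)).sep fun p => fE (v 0) (fst (ZFSet.pair (v 1) (v 2)))
        (snd (ZFSet.pair (v 1) (v 2))) p) :=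
      Tm.at2 (F := fun _ x r => (rg r).sep fun p => fE r (fst x) (snd x) p) tm_fE
        (Tm.pair (Tm.var 1) (Tm.var 2)) (Tm.var 0)
    refine ((Dfb.mem (Tm.var 3) (Tm.rg (Tm.var 0))).not.or (Dfb.mem (Tm.var 3) h2)).congr
      fun M k v hv => ?_
    rw [ZFSet.mem_sep, fst_pair, snd_pair]
    by_cases h : v 3 ∈ rg (v 0)
    · simp [h]
    · simp [h, fE_of_not h]
  refine ⟨h1, ?_⟩
  have h2 : Dfb ZFm (fun _ u => fE (u 3) (u 4) (fst (u 0)) (u 1)) :=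
    h1.comp (args [fun _ u => u 3, fun _ u => u 4, fun _ u => fst (u 0), fun _ u => u 1])
      (tm_args _ (by
        intro a ha
        simp only [List.mem_cons, List.not_mem_nil, or_false] at ha
        rcases ha with rfl | rfl | rfl | rfl
        · exact Tm.var 3
        · exact Tm.var 4
        · exact Tm.fst (Tm.var 0)
        · exact Tm.var 1))
  have h3 : Dfb ZFm (fun _ u => ZFSet.pair (u 0) (u 1) ∈ u 2 ∧ ∃ z ∈ u 4, IsPr z ∧
      ZFSet.pair (u 0) (snd z) ∈ u 2 ∧ fE (u 2) (u 3) (fst z) (u 0)) := by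
    refine (Dfb.pairMem (Tm.var 0) (Tm.var 1) (Tm.var 2)).and ?_
    exact (Dfb.bex (R := fun _ u => IsPr (u 0) ∧ ZFSet.pair (u 1) (snd (u 0)) ∈ u 3 ∧
      fE (u 3) (u 4) (fst (u 0)) (u 1)) ktr_zfm (Tm.var 4)
      ((Dfb.isPr (Tm.var 0)).and ((Dfb.pairMem (Tm.var 1) (Tm.snd (Tm.var 0)) (Tm.var 3)).and
        h2))).congr fun M k v hv => Iff.rfl
  have h4 : Dfb ZFm (fun M u => ZFSet.pair (u 0) (u 4) ∈ u 1 → ∃ q', M q' ∧
      (ZFSet.pair q' (u 0) ∈ u 1 ∧ ∃ z ∈ u 3, IsPr z ∧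
      ZFSet.pair q' (snd z) ∈ u 1 ∧ fE (u 1) (u 2) (fst z) q')) :=
    (Dfb.pairMem (Tm.var 0) (Tm.var 4) (Tm.var 1)).imp (h3.ex.congr fun M k v hv => Iff.rfl)
  refine h4.all.congr fun M k v hv => ?_
  constructor
  · intro H q hq
    obtain ⟨q', -, h5, h6⟩ := H q (k.of_pair_mem (hv 0) hq).1 hq
    exact ⟨q', h5, h6⟩
  · intro H q _ hq
    obtain ⟨q', h5, h6⟩ := H q hq
    exact ⟨q', (k.of_pair_mem (hv 0) h5).1, h5, h6⟩

end SF.H62
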