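import Pool.Agent.H9.SF.FDefs

/-! FC: the forcing relation of each formula is definable. -/

set_option linter.unusedVariables false

open Ordinal
open scoped ZFSet

namespace SF.H62

open SF

theorem fc (hFB : T_FB) : T_FC := by
  intro φ
  induction φ with
  | mem i j =>
    exact (hFB.2.rn (fun n => match n with
      | 0 => 0
      | 1 => i + 2
      | 2 => j + 2
      | _ => 1)).congr fun M k v hv => Iff.rfl
  | eq i j =>
    exact (hFB.1.rn (fun n => match n with
      | 0 => 0
      | 1 => i + 2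
      | 2 => j + 2
      | _ => 1)).congr fun M k v hv => Iff.rfl
  | prd i => exact Dfb.fls
  | neg φ ih =>
    have h1 : Dfb ZFm (fun M u => ZFSet.pair (u 0) (u 2) ∈ u 1 →
        ¬ frc M (u 1) φ (fun i => u (i + 3)) (u 0)) :=
      (Dfb.pairMem (Tm.var 0) (Tm.var 2) (Tm.var 1)).imp
        ((ih.rn (fun n => match n with
          | 0 => 1
          | 1 => 0
          | n + 2 => n + 3)).not.congr fun M k v hv => Iff.rfl)
    refine h1.all.congr fun M k v hv => ?_
    constructor
    · intro H q hq
      exact H q (k.of_pair_mem (hv 0) hq).1 hq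
    · intro H q _ hq
      exact H q hq
  | and φ ψ ih1 ih2 => exact (ih1.and ih2).congr fun M k v hv => Iff.rfl
  | ex φ ih =>
    have h0 : Dfb ZFm (fun M u => frc M (u 3) φ (cons (u 0) fun i => u (i + 5)) (u 1)) := by
      refine (ih.rn (fun n => match n with
          | 0 => 3
          | 1 => 1
          | 2 => 0
          | n + 3 => n + 5)).congr fun M k v hv => ?_
      have e : (fun i => v ((fun n => match n with
          | 0 => 3
          | 1 => 1
          | 2 => 0
          | n + 3 => n + 5 : ℕ → ℕ) (i + 2))) = cons (v 0) fun i => v (i + 5) := by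
        funext i
        cases i <;> rfl
      show frc M (v 3) φ (fun i => v ((fun n => match n with
          | 0 => 3
          | 1 => 1
          | 2 => 0
          | n + 3 => n + 5 : ℕ → ℕ) (i + 2))) (v 1) ↔ _
      rw [e]
    have h1 : Dfb ZFm (fun M u => ZFSet.pair (u 0) (u 1) ∈ u 2 ∧ ∃ τ, M τ ∧
        frc M (u 2) φ (cons τ fun i => u (i + 4)) (u 0)) :=
      (Dfb.pairMem (Tm.var 0) (Tm.var 1) (Tm.var 2)).and (h0.ex.congr fun M k v hv => Iff.rfl)
    have h2 : Dfb ZFm (fun M u => ZFSet.pair (u 0) (u 2) ∈ u 1 → ∃ q', M q' ∧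
        (ZFSet.pair q' (u 0) ∈ u 1 ∧ ∃ τ, M τ ∧
          frc M (u 1) φ (cons τ fun i => u (i + 3)) q')) :=
      (Dfb.pairMem (Tm.var 0) (Tm.var 2) (Tm.var 1)).imp (h1.ex.congr fun M k v hv => Iff.rfl)
    refine h2.all.congr fun M k v hv => ?_
    constructor
    · intro H q hq
      obtain ⟨q', -, h5, h6⟩ := H q (k.of_pair_mem (hv 0) hq).1 hq
      exact ⟨q', h5, h6⟩
    · intro H q _ hq
      obtain ⟨q', h5, h6⟩ := H q hq
      exact ⟨q', (k.of_pair_mem (hv 0) h5).1, h5, h6⟩

end SF.H62
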