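import Pool.Agent.H72.SF.VT

/-! VJ: use of subcompleteness. -/

set_option linter.unusedVariables false

open Ordinal Cardinal Order Set
open scoped ZFSet

namespace SF.H62

open SF

private theorem vj_split {N' N f a b c d e q : V} (h : IsElem N' N f)
    (h1 : ZFm (· ∈ N')) (h2 : ZFm (· ∈ N)) (ha : a ∈ N') (hb : b ∈ N') (hc : c ∈ N')
    (hd : d ∈ N') (he : e ∈ N') (hq : q ∈ N') :
    ZFSet.pair a (ZFSet.pair b (ZFSet.pair c (ZFSet.pair d (ZFSet.pair e q)))) ∈ N' ∧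
    app f (ZFSet.pair a (ZFSet.pair b (ZFSet.pair c (ZFSet.pair d (ZFSet.pair e q))))) =
      ZFSet.pair (app f a) (ZFSet.pair (app f b) (ZFSet.pair (app f c) (ZFSet.pair (app f d)
        (ZFSet.pair (app f e) (app f q))))) := by
  have m1 : ZFSet.pair e q ∈ N' := h1.mpair he hq
  have m2 : ZFSet.pair d (ZFSet.pair e q) ∈ N' := h1.mpair hd m1
  have m3 : ZFSet.pair c (ZFSet.pair d (ZFSet.pair e q)) ∈ N' := h1.mpair hc m2
  have m4 : ZFSet.pair b (ZFSet.pair c (ZFSet.pair d (ZFSet.pair e q))) ∈ N' := h1.mpair hb m3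
  refine ⟨h1.mpair ha m4, ?_⟩
  rw [h.app_pair h1 h2 ha m4, h.app_pair h1 h2 hb m3, h.app_pair h1 h2 hc m2,
    h.app_pair h1 h2 hd m1, h.app_pair h1 h2 he hq]

theorem vj (hVG : T_VG) (hVH : T_VH) (hVI : T_VI) (hFM : T_FM) (hFI : T_FI) (hVE : T_VE)
    (hWF : T_WF) (hWG : T_WG) : T_VJ := by
  intro S
  obtain ⟨g, elg, Wg, gx, gGs, gval, N'sub, Nsub, GsN2, GN2, z2', z2, -, -⟩ := hVG S
  have tr2' : S.N2'.IsTransitive := fun x hx y hy => z2'.trans x hx y hy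
  have ne2' : S.N2'.Nonempty := ⟨_, GsN2⟩
  obtain ⟨⟨A2', hA2', eN2, gA2⟩, θτ, WN2', ctN2', fullN2', hH⟩ := hVH S g elg ne2' tr2'
  obtain ⟨po', onto', c'N, r'N, e'N, genGc, WGc, -⟩ := hVI S
  obtain ⟨⟨mB', mmu', mρ', mC', mk', mcn', mrn', men', mθ', mhn'⟩,
    ⟨fB, fmu, fρ, fC, fk, fcn, frn, fen, fθ, fhn⟩, -⟩ := hVE S
  have zM : ZFm (· ∈ S.M) := S.zfc.toZFCm.toZFm
  have mpos : pos S.B ∈ S.M := hWF.2.2.1.1 (· ∈ S.M) zM (fun _ => S.B) fun _ => S.mB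
  have mincl : incl S.B ∈ S.M := hWF.2.2.2.1.1 (· ∈ S.M) zM (fun _ => S.B) fun _ => S.mB
  have hMW : ∀ x ∈ S.M, Ext (· ∈ S.M) S.G x :=
    (hFI (· ∈ S.M) (pos S.B) (incl S.B) S.G zM mpos mincl
      (hWG.2.2.1 (· ∈ S.M) S.B S.cba S.ne) S.gen).2.1
  have N2W : ∀ x ∈ S.N2, Ext (· ∈ S.M) S.G x := by
    intro x hx
    obtain ⟨y, hy, rfl⟩ := mem_extS.1 hx
    exact ⟨y, zM.trans _ S.mN y hy, rfl⟩
  have z2m := z2.toZFm
  have z2m' := z2'.toZFm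
  have gθ : app g S.θ' = S.θ.toZFSet := by rw [gx _ mθ', fθ]
  have gc : app g S.c' = S.c := by
    show app g (val S.Gs S.cn') = S.c
    rw [gval _ mcn', fcn, S.vcn]
  have gr : app g S.r' = S.r := by
    show app g (val S.Gs S.rn') = S.r
    rw [gval _ mrn', frn, S.vrn]
  have ge : app g S.e' = S.e := by
    show app g (val S.Gs S.en') = S.e
    rw [gval _ men', fen, S.ven]
  have gcr : app g (ZFSet.pair S.c' S.r') = ZFSet.pair S.c S.r := by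
    rw [elg.app_pair z2m' z2m c'N r'N, gc, gr]
  obtain ⟨ms, gs⟩ := vj_split elg z2m' z2m GsN2 (N'sub S.mA') e'N (N'sub mmu') (N'sub mC')
    (N'sub S.mq)
  rw [gGs, gx _ S.mA', S.fA, ge, gx _ mmu', fmu, gx _ mC', fC, gx _ S.mq] at gs
  obtain ⟨p, hp, hp2⟩ := S.sub S.τ (app g A2') S.N2 θτ (hMW _ S.mτ) (N2W _ gA2) eN2 gA2 hH z2
    S.N2' g S.θ' S.c' S.r' _ _ A2' WN2' Wg ctN2' fullN2' elg (N'sub mθ') (z2m'.mpair c'N r'N)
    ms hA2' gθ gcr gs rfl S.Gc WGc genGc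
  have hctb : {x | Ext (· ∈ S.M) S.G x}.Countable := by
    refine (S.ctb.image (fun x => val S.G x)).mono ?_
    rintro x ⟨y, hy, rfl⟩
    exact ⟨y, hy, rfl⟩
  obtain ⟨Hc, hHc, hpH⟩ := hFM (Ext (· ∈ S.M) S.G) S.c S.r p hctb S.po hp
  obtain ⟨f', f1, f2, f3, f4, f5, f6, f7⟩ := hp2 Hc hHc hpH
  refine ⟨Hc, hHc, f', f1, f2, ?_⟩
  obtain ⟨-, fs⟩ := vj_split f2 z2m' z2m GsN2 (N'sub S.mA') e'N (N'sub mmu') (N'sub mC')
    (N'sub S.mq)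
  rw [fs] at f5
  obtain ⟨a1, f5⟩ := ZFSet.pair_injective f5
  obtain ⟨a2, f5⟩ := ZFSet.pair_injective f5
  obtain ⟨a3, f5⟩ := ZFSet.pair_injective f5
  obtain ⟨a4, f5⟩ := ZFSet.pair_injective f5
  obtain ⟨a5, f5⟩ := ZFSet.pair_injective f5
  exact ⟨a1, a2, a3, a4, a5, f5, f7⟩

end SF.H62
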