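import Pool.Agent.H72.SF.VT

/-! VK: the new elementary map, in the extension by the two-step forcing. -/

set_option linter.unusedVariables false

open Ordinal Cardinal Order Set
open scoped ZFSet

namespace SF.H62

open SF

private theorem vk_mem {N' N f x y : V} (h : IsElem N' N f) (hx : x ∈ N') (hy : y ∈ N') :
    x ∈ y ↔ app f x ∈ app f y := by
  let v : ℕ → V := fun i => if i = 0 then x else y
  have hv : ∀ i, v i ∈ N' := by
    intro i
    show (if i = 0 then _ else _) ∈ N'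
    split
    · exact hx
    · exact hy
  exact h.el (.mem 0 1) v hv

private theorem vk_rt : Tm ZFm (fun _ v => rt (v 0) (v 1) (v 2)) :=
  (Tm.sep (R := fun _ v => app (v 2) (v 0) ∈ v 3)
    (Dfb.mem (Tm.app (Tm.var 2) (Tm.var 0)) (Tm.var 3))
    (Tm.prod (Tm.var 0) (Tm.var 0))).congr fun M k v hv => rfl

private theorem vk_hc : Tm ZFm (fun _ v => (v 0).sep fun y =>
    ∃ ξ ∈ v 3, ZFSet.pair (app (v 2) ξ) y ∈ v 1) := by
  refine (Tm.sep (R := fun _ w => ∃ ξ ∈ w 4, ZFSet.pair (app (w 3) ξ) (w 0) ∈ w 2) ?_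
    (Tm.var 0)).congr fun M k v hv => rfl
  exact (Dfb.bex (R := fun _ u => ZFSet.pair (app (u 4) (u 0)) (u 1) ∈ u 3) ktr_zfm (Tm.var 4)
    (Dfb.pairMem (Tm.app (Tm.var 4) (Tm.var 0)) (Tm.var 1) (Tm.var 3))).congr
    fun M k v hv => Iff.rfl

theorem vk (hVJ : T_VJ) (hVF : T_VF) (hVI : T_VI) (hVB : T_VB) (hVG : T_VG) (hVE : T_VE)
    (hTSA : T_TSA) (hFN : T_FN) (hFI : T_FI) (hLRS : T_LRS) (hLET : T_LET) (hWF : T_WF)
    (hWG : T_WG) (hQA : T_QA) (hQH : T_QH) : T_VK := by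
  intro S
  obtain ⟨Hc, hHc, f', f1, f2, fGs, fA, fe, fmu, fC, fq, fGc⟩ := hVJ S
  obtain ⟨-, memG', -, -, K'prod, -, -⟩ := hVF S
  obtain ⟨-, -, -, -, e'N, -, -, hHs⟩ := hVI S
  obtain ⟨-, -, -, -, -, -, N'sub, Nsub, GsN2, -, z2', z2, ht', ht⟩ := hVG S
  obtain ⟨⟨mB', mmu', mρ', mC', mk', mcn', mrn', men', mθ', mhn'⟩, -, -⟩ := hVE S
  have zM : ZFm (· ∈ S.M) := S.zfc.toZFCm.toZFm
  have z2m := z2.toZFm
  have z2m' := z2'.toZFm
  have mpos : pos S.B ∈ S.M := hWF.2.2.1.1 (· ∈ S.M) zM (fun _ => S.B) fun _ => S.mB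
  have mincl : incl S.B ∈ S.M := hWF.2.2.2.1.1 (· ∈ S.M) zM (fun _ => S.B) fun _ => S.mB
  obtain ⟨zW, MW, WG⟩ := hFI (· ∈ S.M) (pos S.B) (incl S.B) S.G zM mpos mincl
    (hWG.2.2.1 (· ∈ S.M) S.B S.cba S.ne) S.gen
  -- the generic filter on `mu`
  have Wrt : Ext (· ∈ S.M) S.G (rt S.mu S.ρ S.G) := by
    have := vk_rt.1 (Ext (· ∈ S.M) S.G) zW
      (fun i => match i with | 0 => S.mu | 1 => S.ρ | _ => S.G)
      (fun i => match i with | 0 => MW _ S.mmu | 1 => MW _ S.mρ | _ + 2 => WG)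
    exact this
  have hchar : ∀ ξ η, ZFSet.pair ξ η ∈ rt S.mu S.ρ S.G ↔
      ξ ∈ S.mu ∧ η ∈ S.mu ∧ ZFSet.pair (app S.e ξ) (app S.e η) ∈ S.r := by
    intro ξ η
    unfold rt
    rw [ZFSet.mem_sep, ZFSet.pair_mem_prod]
    constructor
    · rintro ⟨⟨h1, h2⟩, h3⟩
      exact ⟨h1, h2, (S.eq ξ h1 η h2).1 h3⟩
    · rintro ⟨h1, h2, h3⟩
      exact ⟨⟨h1, h2⟩, (S.eq ξ h1 η h2).2 h3⟩
  obtain ⟨genH, hHcEq⟩ := (hVB (Ext (· ∈ S.M) S.G) S.mu S.c S.r (rt S.mu S.ρ S.G) S.e zW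
    (MW _ S.mmu) S.wc S.wr Wrt S.we S.po S.onto hchar
    (fun z hz => (ZFSet.mem_sep.1 hz).1)).2.2 Hc hHc
  set H : V := S.mu.sep fun ξ => app S.e ξ ∈ Hc with hH
  have genK := hTSA (· ∈ S.M) S.B S.G S.mu S.ρ H zM S.mB S.cba S.ne S.gen S.mmu S.mρ S.pre genH
  obtain ⟨g0, hg0⟩ := S.gen.1.ne
  obtain ⟨h0, hh0⟩ := genH.1.ne
  have dmK : dm (ZFSet.prod S.G H) = S.G := by
    ext x
    rw [mem_dm]
    constructor
    · rintro ⟨y, hy⟩
      exact (ZFSet.pair_mem_prod.1 hy).1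
    · intro hx
      exact ⟨h0, ZFSet.pair_mem_prod.2 ⟨hx, hh0⟩⟩
  have rgK : rg (ZFSet.prod S.G H) = H := by
    ext x
    rw [mem_rg]
    constructor
    · rintro ⟨y, hy⟩
      exact (ZFSet.pair_mem_prod.1 hy).2
    · intro hx
      exact ⟨g0, ZFSet.pair_mem_prod.2 ⟨hg0, hx⟩⟩
  set K : V := ZFSet.prod S.G H with hK
  -- the extension by `K`
  have mqS : qS S.B S.mu ∈ S.M := by
    have := hQH.1.1 (· ∈ S.M) zM (fun i => match i with | 0 => S.B | _ => S.mu)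
      (fun i => match i with | 0 => S.mB | _ + 1 => S.mmu)
    exact this
  have mqR : qR S.B S.mu S.ρ ∈ S.M := by
    have := hQH.2.1.1 (· ∈ S.M) zM (fun i => match i with | 0 => S.B | 1 => S.mu | _ => S.ρ)
      (fun i => match i with | 0 => S.mB | 1 => S.mmu | _ + 2 => S.mρ)
    exact this
  obtain ⟨z3, M3, K3⟩ := hFI (· ∈ S.M) (qS S.B S.mu) (qR S.B S.mu S.ρ) K zM mqS mqR
    (hQA.1 (· ∈ S.M) S.B S.mu S.ρ S.cba S.ne S.pre) genK
  have G3 : Ext (· ∈ S.M) K S.G := by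
    have := (Tm.dm (Tm.var 0)).1 (Ext (· ∈ S.M) K) z3 (fun _ => K) (fun _ => K3)
    rw [← dmK]
    exact this
  have H3 : Ext (· ∈ S.M) K H := by
    have := (Tm.rg (Tm.var 0)).1 (Ext (· ∈ S.M) K) z3 (fun _ => K) (fun _ => K3)
    rw [← rgK]
    exact this
  have W3 : ∀ y, Ext (· ∈ S.M) S.G y → Ext (· ∈ S.M) K y :=
    hFN (· ∈ S.M) (Ext (· ∈ S.M) K) S.G z3 M3 G3
  have Hc3 : Ext (· ∈ S.M) K Hc := by
    have := vk_hc.1 (Ext (· ∈ S.M) K) z3
      (fun i => match i with | 0 => S.c | 1 => S.r | 2 => S.e | _ => H)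
      (fun i => match i with
        | 0 => W3 _ S.wc
        | 1 => W3 _ S.wr
        | 2 => W3 _ S.we
        | _ + 3 => H3)
    rw [hHcEq]
    exact this
  have f3 : Ext (· ∈ S.M) K f' := hFN (Ext (· ∈ S.M) S.G) (Ext (· ∈ S.M) K) Hc z3 W3 Hc3 f' f1
  have f03 : Ext (· ∈ S.M) K (resS S.N' fun x => app f' x) := by
    have := (Tm.resS (f := fun _ v => v 0) (g := fun _ v => app (v 2) (v 0)) (Tm.var 0)
      (Tm.app (Tm.var 2) (Tm.var 0))).1 (Ext (· ∈ S.M) K) z3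
      (fun i => match i with | 0 => S.N' | _ => f')
      (fun i => match i with | 0 => M3 _ S.mN' | _ + 1 => f3)
    exact this
  -- elementarity
  obtain ⟨r1, r2⟩ := hLRS S.N2' S.N2 S.A' S.A f' z2m' z2m f2 (N'sub S.mA') fA S.τ' S.τ ht' ht
  rw [← S.eN', ← S.eN] at r2
  have r1' : ∀ x ∈ S.N', app f' x ∈ S.N := by
    intro x hx
    rw [S.eN]
    refine r1 x ?_
    rw [← S.eN']
    exact hx
  have happ : ∀ x ∈ S.N', app (resS S.N' fun x => app f' x) x = app f' x :=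
    fun x hx => app_resS hx
  have el0 : IsElem S.N' S.N (resS S.N' fun x => app f' x) := by
    refine ⟨isFunc_resS _ _ _ r1', fun φ v hv => ?_⟩
    rw [r2 φ v hv]
    have e1 : (fun i => app (resS S.N' fun x => app f' x) (v i)) = fun i => app f' (v i) := by
      funext i
      exact happ _ (hv i)
    rw [e1]
  have zN' := S.zN'.toZFm
  refine ⟨K, genK, dmK, _, f03, el0, ?_, fun z hz => ?_⟩
  · rw [happ _ S.mq, fq]
  · have hzC : z ∈ S.C' := S.gen'.sub hz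
    have hzN : z ∈ S.N' := zN'.trans _ mC' z hzC
    rw [happ _ hzN]
    refine ⟨?_, ?_⟩
    · rw [← fC]
      exact (vk_mem f2 (N'sub hzN) (N'sub mC')).1 hzC
    · obtain ⟨t, htz, htK⟩ := (memG' z hzC).1 hz
      rw [K'prod] at htK
      obtain ⟨b, hb, ξ, hξ, rfl⟩ := ZFSet.mem_prod.1 htK
      have htN : ZFSet.pair b ξ ∈ S.N' := zN'.trans _ hzN _ htz
      obtain ⟨hbN, hξN⟩ := zN'.of_pair htN
      refine ⟨app f' (ZFSet.pair b ξ), ?_, (vk_mem f2 (N'sub htN) (N'sub hzN)).1 htz⟩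
      rw [f2.app_pair z2m' z2m (N'sub hbN) (N'sub hξN), hK, ZFSet.pair_mem_prod, hH,
        ZFSet.mem_sep]
      refine ⟨?_, ?_, ?_⟩
      · rw [← fGs]
        exact (vk_mem f2 (N'sub hbN) GsN2).1 hb
      · rw [← fmu]
        exact (vk_mem f2 (N'sub hξN) (N'sub mmu')).1 (hHs ξ hξ).1
      · have e1 : app f' (app S.e' ξ) = app (app f' S.e') (app f' ξ) := by
          have := hLET ZFm (fun _ v => app (v 0) (v 1)) (Tm.app (Tm.var 0) (Tm.var 1)) S.N2' S.N2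
            f' f2 z2m' z2m (fun i => match i with | 0 => S.e' | _ => ξ)
            (fun i => match i with | 0 => e'N | _ + 1 => N'sub hξN)
          exact this
        rw [← fe, ← e1]
        exact fGc _ (hHs ξ hξ).2

end SF.H62
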